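import Pool.Agent.H15R2.TC3

/-!
A variant of helper15's Todd-Coxeter machine (`Pool.Agent.H15R2.TC3`) with involutory letters.

Letters: `0`, `1` are involutions, `2`, `3` and `4`, `5` are pairs of mutually inverse letters.
The tables, the tries and the treatment of coincidences are those of `H15.TC`.
-/

namespace Pool.Agent.N151.LF

open H15.TC

/-- inverse letter -/
noncomputable def iv (g : ℕ) : ℕ :=
  Bool.rec (motive := fun _ => ℕ) (inv g) g (Nat.ble g (nat_lit 1))

/-- inverse word -/
noncomputable def irv (w : List ℕ) : List ℕ := (w.map iv).reverse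

/-- scan the relator `r` at coset `c` -/
noncomputable def scn (r : List ℕ) (c : ℕ) (T : Tr) : Tr :=
  resK T (fun c0 N0 =>
    match fwdF T r c0 N0 with
    | (a, []) => mergeq (nat_lit 100000) [(a, c0)] T
    | (a, g :: w) =>
      match fwdF T (irv (g :: w)) c0 N0 with
      | (b, []) => mergeq (nat_lit 100000) [(a, b)] T
      | (b, [h]) => setEK T b h (Nat.succ a) fun T' => setEK T' a (iv h) (Nat.succ b) fun T'' => T''
      | (_, _ :: _ :: _) => T) (nat_lit 4096) c

/-- all scnl -/
noncomputable def scnl (rels : List (List ℕ)) : List ℕ → Tr → Tr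
  | [], T => T
  | s :: ss, T => forceT (scn (rels.getD (Nat.mod s (nat_lit 64)) [])
      (Nat.div s (nat_lit 64)) T) fun T' => scnl rels ss T'

/-- definitions: the `n`-th entry `8*c+g` defines the coset `n` as `c·g` -/
noncomputable def bld : List ℕ → ℕ → Tr → Tr
  | [], _, T => T
  | d :: ds, n, T =>
    force n fun n => force d fun d =>
    cond (Nat.ble (Nat.succ (Nat.div d (nat_lit 8))) n)
      (setEK T (Nat.div d (nat_lit 8)) (Nat.mod d (nat_lit 8)) (Nat.succ n) fun T' =>
        setEK T' n (iv (Nat.mod d (nat_lit 8))) (Nat.succ (Nat.div d (nat_lit 8)))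
          fun T'' => bld ds (Nat.succ n) T'')
      (bld ds (Nat.succ n) T)

/-- the checker -/
noncomputable def chk (rels : List (List ℕ)) (defs scs : List ℕ) (goal : List ℕ) : Bool :=
  forceT (bld (unpack defs) 1 .nil) fun T0 =>
    forceT (scnl rels (unpack scs) T0) fun T =>
      match fwd T goal 0 with
      | (0, []) => true
      | _ => false

/-! ### soundness -/

section sound

set_option linter.unusedSectionVars false

variable {G : Type*} [Group G]

/-- value of a letter: `0`, `1` are the involutions `gen 0`, `gen 1`; `2`, `3` are `gen 2` and its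
inverse; `4`, `5` are `gen 3` and its inverse -/
def lw (gen : ℕ → G) (g : ℕ) : G :=
  if g < 2 then gen g else if g % 2 = 0 then gen (g / 2 + 1) else (gen (g / 2 + 1))⁻¹

/-- the first two generators are involutions (or trivial) -/
def HI (gen : ℕ → G) : Prop := ∀ g < 2, gen g * gen g = 1

/-- value of a word -/
def ew (gen : ℕ → G) (w : List ℕ) : G := (w.map (lw gen)).prod

theorem lw_inv {gen : ℕ → G} (hI : HI gen) (g : ℕ) : lw gen (iv g) = (lw gen g)⁻¹ := by
  by_cases h0 : g < 2
  · have h1 : iv g = g := by
      unfold iv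
      have : Nat.ble g (nat_lit 1) = true := Nat.ble_eq_true_of_le (Nat.lt_succ_iff.mp h0)
      rw [this]
    rw [h1]
    unfold lw
    rw [if_pos h0]
    exact (inv_eq_of_mul_eq_one_left (hI g h0)).symm
  · have hb : Nat.ble g (nat_lit 1) = false := by
      cases h : Nat.ble g (nat_lit 1) with
      | false => rfl
      | true =>
        have : g ≤ 1 := Nat.le_of_ble_eq_true h
        omega
    have h1 : iv g = inv g := by unfold iv; rw [hb]
    by_cases h2 : g % 2 = 0
    · have h3 : inv g = g + 1 := by unfold inv; rw [beq_mod_true h2]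
      have h4 : (g + 1) % 2 ≠ 0 := by omega
      have h5 : (g + 1) / 2 = g / 2 := by omega
      rw [h1, h3]; unfold lw
      rw [if_neg (by omega), if_neg h4, if_neg h0, if_pos h2, h5]
    · have h3 : inv g = g - 1 := by unfold inv; rw [beq_mod_false h2]; rfl
      have h4 : (g - 1) % 2 = 0 := by omega
      have h5 : (g - 1) / 2 = g / 2 := by omega
      rw [h1, h3]; unfold lw
      rw [if_neg (by omega), if_pos h4, if_neg h0, if_neg h2, h5, inv_inv]

@[simp] theorem ew_nil (gen : ℕ → G) : ew gen [] = 1 := rfl

theorem ew_cons (gen : ℕ → G) (g : ℕ) (w : List ℕ) : ew gen (g :: w) = lw gen g * ew gen w := by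
  simp [ew]

theorem ew_append (gen : ℕ → G) (u w : List ℕ) : ew gen (u ++ w) = ew gen u * ew gen w := by
  simp [ew]

theorem ew_irv {gen : ℕ → G} (hI : HI gen) (w : List ℕ) : ew gen (irv w) = (ew gen w)⁻¹ := by
  induction w with
  | nil => simp [irv]
  | cons g w ih =>
    have : irv (g :: w) = irv w ++ [iv g] := by simp [irv]
    rw [this, ew_append, ih, ew_cons, ew_cons, ew_nil, lw_inv hI, mul_one, mul_inv_rev]

variable (gen : ℕ → G) (val : ℕ → G)

/-- the table is correct -/
def Inv (T : Tr) : Prop :=
  (∀ c g d, nx T c g = d + 1 → val c * lw gen g = val d) ∧ (∀ c u, pa T c = u + 1 → val c = val u)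

variable {gen val}

theorem Inv.setE {T : Tr} (h : Inv gen val T) {c g v : ℕ} (hv : val c * lw gen g = val v) :
    Inv gen val (setE T c g (v + 1)) := by
  refine ⟨?_, ?_⟩
  · intro c' g' d hd
    rcases nx_setE T c g (v + 1) c' g' with h1 | ⟨rfl, rfl, h3⟩
    · exact h.1 c' g' d (by rw [← h1]; exact hd)
    · have : d = v := by rw [h3] at hd; omega
      rw [this]; exact hv
  · intro c' u hu
    rw [pa_setE] at hu
    exact h.2 c' u hu

theorem Inv.setP {T : Tr} (h : Inv gen val T) {c v : ℕ} (hv : val c = val v) :
    Inv gen val (setP T c (v + 1)) := by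
  refine ⟨?_, ?_⟩
  · intro c' g' d hd
    rw [nx_setP] at hd
    exact h.1 c' g' d hd
  · intro c' d hd
    rcases pa_setP T c (v + 1) c' with h1 | ⟨rfl, h3⟩
    · exact h.2 c' d (by rw [← h1]; exact hd)
    · have : d = v := by rw [h3] at hd; omega
      rw [this]; exact hv

theorem rep_val {T : Tr} (h : Inv gen val T) (f : ℕ) : ∀ c, val (rep T f c) = val c := by
  induction f with
  | zero => intro c; rfl
  | succ f ih =>
    intro c
    show val (Nat.rec (motive := fun _ => ℕ) c (fun u _ => rep T f u) (pa T c)) = val c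
    cases hc : pa T c with
    | zero => rfl
    | succ u =>
      show val (rep T f u) = val c
      rw [ih u]; exact (h.2 c u hc).symm

theorem fwd_val {T : Tr} (h : Inv gen val T) (w : List ℕ) :
    ∀ c, val c * ew gen w = val (fwd T w c).1 * ew gen (fwd T w c).2 := by
  induction w with
  | nil => intro c; rfl
  | cons g w ih =>
    intro c
    show val c * ew gen (g :: w) = val (Nat.rec (motive := fun _ => ℕ × List ℕ) (c, g :: w)
      (fun d _ => force (rep T (nat_lit 4096) d) (fwd T w)) (nx T c g)).1 * ew gen (Nat.rec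
      (motive := fun _ => ℕ × List ℕ) (c, g :: w)
      (fun d _ => force (rep T (nat_lit 4096) d) (fwd T w)) (nx T c g)).2
    cases hc : nx T c g with
    | zero => rfl
    | succ d =>
      show val c * ew gen (g :: w) = val (force (rep T (nat_lit 4096) d) (fwd T w)).1 *
        ew gen (force (rep T (nat_lit 4096) d) (fwd T w)).2
      rw [force_eq, ← ih, rep_val h, ew_cons, ← mul_assoc, h.1 c g d hc]

/-- the queue is correct -/
def InvQ (val : ℕ → G) (q : List (ℕ × ℕ)) : Prop := ∀ p ∈ q, val p.1 = val p.2

theorem rows_cons0 {u v g : ℕ} {gs : List ℕ} {E : Tr} {q : List (ℕ × ℕ)} (hv : nx E v g = 0) :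
    rows u v (g :: gs) E q = rows u v gs E q := by
  show (Nat.rec (motive := fun _ => Tr × List (ℕ × ℕ)) (rows u v gs E q)
      (fun w _ => Nat.rec (motive := fun _ => Tr × List (ℕ × ℕ))
        (setEK E u g (Nat.succ w) fun E' => rows u v gs E' q)
        (fun z _ => rows u v gs E ((z, w) :: q)) (nx E u g)) (nx E v g) :
          Tr × List (ℕ × ℕ)) = _
  rw [hv]; rfl

theorem rows_cons1 {u v g w : ℕ} {gs : List ℕ} {E : Tr} {q : List (ℕ × ℕ)}
    (hv : nx E v g = w + 1) (hu : nx E u g = 0) :
    rows u v (g :: gs) E q = rows u v gs (setE E u g (w + 1)) q := by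
  show (Nat.rec (motive := fun _ => Tr × List (ℕ × ℕ)) (rows u v gs E q)
      (fun w _ => Nat.rec (motive := fun _ => Tr × List (ℕ × ℕ))
        (setEK E u g (Nat.succ w) fun E' => rows u v gs E' q)
        (fun z _ => rows u v gs E ((z, w) :: q)) (nx E u g)) (nx E v g) :
          Tr × List (ℕ × ℕ)) = _
  rw [hv, hu]
  show setEK E u g (Nat.succ w) (fun E' => rows u v gs E' q) = _
  rw [setEK_eq]

theorem rows_cons2 {u v g w z : ℕ} {gs : List ℕ} {E : Tr} {q : List (ℕ × ℕ)}
    (hv : nx E v g = w + 1) (hu : nx E u g = z + 1) :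
    rows u v (g :: gs) E q = rows u v gs E ((z, w) :: q) := by
  show (Nat.rec (motive := fun _ => Tr × List (ℕ × ℕ)) (rows u v gs E q)
      (fun w _ => Nat.rec (motive := fun _ => Tr × List (ℕ × ℕ))
        (setEK E u g (Nat.succ w) fun E' => rows u v gs E' q)
        (fun z _ => rows u v gs E ((z, w) :: q)) (nx E u g)) (nx E v g) :
          Tr × List (ℕ × ℕ)) = _
  rw [hv, hu]

theorem rows_inv {u v : ℕ} (huv : val u = val v) (gs : List ℕ) :
    ∀ (T : Tr) (q : List (ℕ × ℕ)), Inv gen val T → InvQ val q →
      Inv gen val (rows u v gs T q).1 ∧ InvQ val (rows u v gs T q).2 := by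
  induction gs with
  | nil => intro T q hT hq; exact ⟨hT, hq⟩
  | cons g gs ih =>
    intro T q hT hq
    rcases hv : nx T v g with _ | w
    · rw [rows_cons0 hv]; exact ih T q hT hq
    · rcases hu : nx T u g with _ | z
      · rw [rows_cons1 hv hu]
        refine ih _ q (hT.setE ?_) hq
        rw [huv]; exact hT.1 v g w hv
      · rw [rows_cons2 hv hu]
        refine ih T _ hT ?_
        intro p hp
        rcases List.mem_cons.mp hp with rfl | hp
        · show val z = val w
          rw [← hT.1 v g w hv, ← hT.1 u g z hu, huv]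
        · exact hq p hp

theorem mergeq_inv (f : ℕ) : ∀ (q : List (ℕ × ℕ)) (T : Tr), Inv gen val T →
    InvQ val q → Inv gen val (mergeq f q T) := by
  induction f with
  | zero => intro q T hT _; cases q <;> exact hT
  | succ f ih =>
    intro q T hT hq
    cases q with
    | nil => exact hT
    | cons p q =>
      simp only [mergeq, force_eq, setPK_eq]
      have hq' : InvQ val q := fun p hp => hq p (List.mem_cons_of_mem _ hp)
      have hab : val (rep T (nat_lit 4096) p.1) = val (rep T (nat_lit 4096) p.2) := by
        rw [rep_val hT, rep_val hT]; exact hq p List.mem_cons_self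
      cases Nat.beq (rep T (nat_lit 4096) p.1) (rep T (nat_lit 4096) p.2) with
      | true => exact ih q T hT hq'
      | false =>
        cases Nat.ble (Nat.succ (rep T (nat_lit 4096) p.1)) (rep T (nat_lit 4096) p.2) with
        | true =>
          have h := rows_inv (gen := gen) hab [0, 1, 2, 3, 4, 5] T q hT hq'
          exact ih _ _ (h.1.setP hab.symm) h.2
        | false =>
          have h := rows_inv (gen := gen) hab.symm [0, 1, 2, 3, 4, 5] T q hT hq'
          exact ih _ _ (h.1.setP hab) h.2

theorem InvQ.single {a b : ℕ} (h : val a = val b) : InvQ val [(a, b)] := by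
  intro p hp
  rw [List.mem_singleton.mp hp]; exact h

theorem scn_inv (hI : HI gen) {r : List ℕ} (hr : ew gen r = 1) (c : ℕ) {T : Tr} (hT : Inv gen val T) :
    Inv gen val (scn r c T) := by
  unfold scn
  rw [resK_eq]
  simp only [fwdF_eq]
  have h1 := fwd_val hT r (rep T (nat_lit 4096) c)
  rw [hr, mul_one] at h1
  rcases h : fwd T r (rep T (nat_lit 4096) c) with ⟨a, w⟩
  rw [h] at h1
  cases w with
  | nil =>
    simp only [ew_nil, mul_one] at h1
    exact mergeq_inv _ _ _ hT (InvQ.single h1.symm)
  | cons g w =>
    have h2 := fwd_val hT (irv (g :: w)) (rep T (nat_lit 4096) c)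
    rw [ew_irv hI, h1] at h2
    simp only [mul_inv_cancel_right] at h2
    rcases h' : fwd T (irv (g :: w)) (rep T (nat_lit 4096) c) with ⟨b, v⟩
    rw [h'] at h2
    simp only at h2 ⊢
    rw [h']
    match v, h2 with
    | [], h2 =>
      simp only [ew_nil, mul_one] at h2
      exact mergeq_inv _ _ _ hT (InvQ.single h2)
    | [k], h2 =>
      simp only [ew_cons, ew_nil, mul_one] at h2
      simp only [setEK_eq]
      refine Inv.setE (hT.setE h2.symm) ?_
      rw [lw_inv hI, h2, mul_inv_cancel_right]
    | _ :: _ :: _, _ => exact hT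

theorem scnl_inv (hI : HI gen) {rels : List (List ℕ)} (hr : ∀ r ∈ rels, ew gen r = 1) (ss : List ℕ) :
    ∀ (T : Tr), Inv gen val T → Inv gen val (scnl rels ss T) := by
  induction ss with
  | nil => intro T hT; exact hT
  | cons s ss ih =>
    intro T hT
    have h0 : ew gen (rels.getD (Nat.mod s (nat_lit 64)) []) = 1 := by
      by_cases hs : Nat.mod s (nat_lit 64) < rels.length
      · rw [List.getD_eq_getElem _ _ hs]; exact hr _ (List.getElem_mem hs)
      · rw [List.getD_eq_default _ _ (by omega)]; rfl
    show Inv gen val (forceT _ _)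
    rw [forceT_eq]
    exact ih _ (scn_inv hI h0 _ hT)

theorem bld_inv (hI : HI gen) (ds : List ℕ) : ∀ (n : ℕ) (T : Tr), 0 < n →
    (∃ val : ℕ → G, val 0 = 1 ∧ Inv gen val T) →
    (∀ c g d, nx T c g = d + 1 → c < n ∧ d < n) → (∀ c, pa T c = 0) →
    ∃ val : ℕ → G, val 0 = 1 ∧ Inv gen val (bld ds n T) := by
  induction ds with
  | nil => intro n T _ h _ _; exact h
  | cons d ds ih =>
    intro n T hn ⟨val, h0, hT⟩ hf hp
    simp only [bld, setEK_eq, force_eq]
    cases hd : Nat.ble (Nat.succ (Nat.div d (nat_lit 8))) n with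
    | false =>
      refine ih (n + 1) T (by omega) ⟨val, h0, hT⟩ ?_ hp
      intro c g e he
      have := hf c g e he
      omega
    | true =>
      have hd' : Nat.div d (nat_lit 8) < n := Nat.le_of_ble_eq_true hd
      refine ih (n + 1) _ (by omega) ⟨Function.update val n
        (val (Nat.div d (nat_lit 8)) * lw gen (Nat.mod d (nat_lit 8))), ?_, ?_⟩ ?_ ?_
      · rw [Function.update_of_ne (by omega)]; exact h0
      · have hT' : Inv gen (Function.update val n
            (val (Nat.div d (nat_lit 8)) * lw gen (Nat.mod d (nat_lit 8)))) T := by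
          refine ⟨?_, ?_⟩
          · intro c g e he
            have := hf c g e he
            rw [Function.update_of_ne (by omega), Function.update_of_ne (by omega)]
            exact hT.1 c g e he
          · intro c u hu
            rw [hp c] at hu; omega
        refine Inv.setE (hT'.setE ?_) ?_
        · rw [Function.update_of_ne (Nat.ne_of_lt hd'), Function.update_self]
        · rw [Function.update_self, Function.update_of_ne (Nat.ne_of_lt hd'), lw_inv hI,
            mul_inv_cancel_right]
      · intro c g e he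
        rcases nx_setE (setE T (Nat.div d (nat_lit 8)) (Nat.mod d (nat_lit 8)) (Nat.succ n)) n
          (iv (Nat.mod d (nat_lit 8))) (Nat.succ (Nat.div d (nat_lit 8))) c g with
          h1 | ⟨rfl, rfl, h3⟩
        · rw [h1] at he
          rcases nx_setE T (Nat.div d (nat_lit 8)) (Nat.mod d (nat_lit 8)) (Nat.succ n) c g with
            h1 | ⟨rfl, rfl, h3⟩
          · rw [h1] at he
            have := hf c g e he
            omega
          · rw [h3] at he; omega
        · rw [h3] at he; omega
      · intro c
        rw [pa_setE, pa_setE]; exact hp c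

/-- **Soundness of the checker** -/
theorem chk_sound (hI : HI gen) {rels : List (List ℕ)} {defs scs goal : List ℕ}
    (h : chk rels defs scs goal = true) (hr : ∀ r ∈ rels, ew gen r = 1) :
    ew gen goal = 1 := by
  obtain ⟨val, h0, hT⟩ := bld_inv (gen := gen) hI (unpack defs) 1 .nil one_pos
    ⟨fun _ => 1, rfl, fun c g d hd => by rw [nx_nil] at hd; omega,
      fun _ _ _ => rfl⟩
    (by intro c g d hd; rw [nx_nil] at hd; omega) pa_nil
  unfold chk at h
  rw [forceT_eq, forceT_eq] at h
  have hi := scnl_inv (val := val) hI hr (unpack scs) _ hT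
  have hw := fwd_val hi goal 0
  rcases hf : fwd (scnl rels (unpack scs) (bld (unpack defs) 1 Tr.nil)) goal 0 with ⟨a, w⟩
  rw [hf] at h hw
  match a, w, h, hw with
  | 0, [], _, hw => simpa [h0] using hw
  | 0, _ :: _, h, _ => exact absurd h (by simp)
  | _ + 1, [], h, _ => exact absurd h (by simp)
  | _ + 1, _ :: _, h, _ => exact absurd h (by simp)

end sound

end Pool.Agent.N151.LF
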