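import Pool.Agent.N151.LF.TC

/-!
Case trees on top of the Todd-Coxeter machine, for groups in which `(t x)³ = 1` or `[t, x]³ = 1`
for all involutions `t` and all elements `x` of order 3.
-/

namespace Pool.Agent.N151.LF

open H15.TC

/-- for `t² = 1` and `x³ = 1` the product `t x` or the commutator `[t, x]` has trivial cube -/
def HF (G : Type*) [Group G] : Prop :=
  ∀ t x : G, t * t = 1 → x ^ 3 = 1 → (t * x) ^ 3 = 1 ∨ (t * x⁻¹ * t * x) ^ 3 = 1

/-- push a letter on a reduced word -/
noncomputable def pu (g : ℕ) (l : List ℕ) : List ℕ :=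
  List.rec (motive := fun _ => ℕ → List ℕ) (fun g => [g])
    (fun h t ih g => cond (Nat.beq h (iv g)) t (cond (Nat.beq h g) (ih (iv g)) (g :: h :: t))) l g

/-- reduction of a word -/
noncomputable def rd (l : List ℕ) : List ℕ :=
  List.rec (motive := fun _ => List ℕ) [] (fun g _ ih => pu g ih) l

/-- power of a word -/
def pw (w : List ℕ) : ℕ → List ℕ
  | 0 => []
  | n + 1 => w ++ pw w n

/-- rotation of a word -/
noncomputable def rt (k : ℕ) (w : List ℕ) : List ℕ := w.drop k ++ w.take k

/-- conjugate of a word -/
noncomputable def cj (c w : List ℕ) : List ℕ := irv c ++ w ++ c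

/-- the commutator of an involution and a word -/
noncomputable def cm (t u : List ℕ) : List ℕ := t ++ irv u ++ t ++ u

/-- the relators used at a leaf -/
noncomputable def rls (er tw : List (List ℕ)) (sel : List (ℕ × ℕ)) : List (List ℕ) :=
  er ++ sel.map fun p => pw (rd (rt p.2 (tw.getD p.1 []))) 3

/-- case trees: `er` are words with trivial value, `sq` words with trivial square, the last
argument words with trivial cube; at a leaf the machine proves that a goal word is trivial; at a
node there is an involution `c⁻¹ i c` and a word `u` of trivial cube -/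
inductive OK (er sq goals : List (List ℕ)) : List (List ℕ) → Prop where
  | leaf (tw : List (List ℕ)) (sel : List (ℕ × ℕ)) (d s : List ℕ) (g : ℕ) (gw : List ℕ)
      (hg : goals[g]? = some gw) (h : chk (rls er tw sel) d s gw = true) : OK er sq goals tw
  | node (tw t1 t2 : List (List ℕ)) (c i u : List ℕ)
      (hi : (sq.contains i && tw.contains u) = true)
      (h1 : tw ++ [rd (cj c i ++ u)] = t1) (h2 : tw ++ [rd (cm (cj c i) u)] = t2)
      (o1 : OK er sq goals t1) (o2 : OK er sq goals t2) : OK er sq goals tw

section sound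

variable {G : Type*} [Group G] {gen : ℕ → G}

/-- the other generators have trivial cube -/
def HC (gen : ℕ → G) : Prop := ∀ i, 2 ≤ i → gen i ^ 3 = 1

theorem lw_cube (hC : HC gen) {g : ℕ} (hg : ¬ g < 2) : lw gen g ^ 3 = 1 := by
  unfold lw
  rw [if_neg hg]
  split
  · exact hC _ (by omega)
  · rw [inv_pow, hC _ (by omega), inv_one]

theorem pu_cons (g h : ℕ) (t : List ℕ) : pu g (h :: t) =
    cond (Nat.beq h (iv g)) t (cond (Nat.beq h g) (pu (iv g) t) (g :: h :: t)) := rfl

theorem iv_lt {g : ℕ} (hg : g < 2) : iv g = g := by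
  unfold iv
  have : Nat.ble g (nat_lit 1) = true := Nat.ble_eq_true_of_le (Nat.lt_succ_iff.mp hg)
  rw [this]

theorem ew_pu (hI : HI gen) (hC : HC gen) (l : List ℕ) :
    ∀ g, ew gen (pu g l) = lw gen g * ew gen l := by
  induction l with
  | nil => intro g; show ew gen [g] = _; rw [ew_cons]
  | cons h t ih =>
    intro g
    rw [pu_cons]
    cases h1 : Nat.beq h (iv g) with
    | true =>
      have := Nat.eq_of_beq_eq_true h1
      rw [cond_true, this, ew_cons, lw_inv hI, mul_inv_cancel_left]
    | false =>
      cases h2 : Nat.beq h g with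
      | true =>
        have h3 := Nat.eq_of_beq_eq_true h2
        have hg : ¬ g < 2 := by
          intro hg
          rw [iv_lt hg, h3] at h1
          exact absurd h1 (by simp)
        rw [cond_false, cond_true, ih, h3, ew_cons, lw_inv hI]
        have h4 := lw_cube hC hg
        have h5 : (lw gen g)⁻¹ = lw gen g * lw gen g := by
          rw [inv_eq_iff_mul_eq_one, ← pow_three]; exact h4
        rw [h5, mul_assoc]
      | false => rw [cond_false, cond_false, ew_cons]

theorem ew_rd (hI : HI gen) (hC : HC gen) (l : List ℕ) : ew gen (rd l) = ew gen l := by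
  induction l with
  | nil => rfl
  | cons g l ih =>
    show ew gen (pu g (rd l)) = _
    rw [ew_pu hI hC, ih, ew_cons]

theorem ew_pw (w : List ℕ) (n : ℕ) : ew gen (pw w n) = ew gen w ^ n := by
  induction n with
  | zero => simp [pw]
  | succ n ih => rw [pw, ew_append, ih, pow_succ']

theorem cube_comm {a b : G} (h : (a * b) ^ 3 = 1) : (b * a) ^ 3 = 1 := by
  have h1 : (b * a) ^ 3 = a⁻¹ * (a * b) ^ 3 * a := by simp only [pow_succ, pow_zero]; group
  rw [h1, h]; group

theorem ew_rt {w : List ℕ} (k : ℕ) (h : ew gen w ^ 3 = 1) : ew gen (rt k w) ^ 3 = 1 := by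
  unfold rt
  rw [ew_append]
  apply cube_comm
  rw [← ew_append, List.take_append_drop]
  exact h

/-- **Soundness of case trees** -/
theorem sound {er sq goals : List (List ℕ)} (hF : HF G) (hI : HI gen) (hC : HC gen)
    (her : ∀ w ∈ er, ew gen w = 1) (hsq : ∀ w ∈ sq, ew gen w * ew gen w = 1)
    {tw : List (List ℕ)} (t : OK er sq goals tw) (htw : ∀ w ∈ tw, ew gen w ^ 3 = 1) :
    ∃ g ∈ goals, ew gen g = 1 := by
  induction t with
  | leaf tw sel d s g gw hg h =>
    refine ⟨gw, List.mem_of_getElem? hg, ?_⟩
    refine chk_sound (gen := gen) hI h ?_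
    intro r hr
    unfold rls at hr
    rcases List.mem_append.mp hr with hr | hr
    · exact her r hr
    · obtain ⟨p, _, rfl⟩ := List.mem_map.mp hr
      rw [ew_pw, ew_rd hI hC]
      apply ew_rt
      by_cases hp : p.1 < tw.length
      · have : tw.getD p.1 [] = tw[p.1] := by simp [List.getD, hp]
        rw [this]
        exact htw _ (List.getElem_mem hp)
      · have : tw.getD p.1 [] = [] := by
          simp [List.getD, not_lt.mp hp]
        rw [this]
        simp
  | node tw t1 t2 c i u hi e1 e2 _ _ ih1 ih2 =>
    rw [Bool.and_eq_true] at hi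
    obtain ⟨hi, hu⟩ := hi
    have hi' : ew gen i * ew gen i = 1 := hsq i (by simpa using hi)
    have hu' : ew gen u ^ 3 = 1 := htw u (by simpa using hu)
    have hcj : ew gen (cj c i) = (ew gen c)⁻¹ * ew gen i * ew gen c := by
      unfold cj
      rw [ew_append, ew_append, ew_irv hI]
    have hcj2 : ew gen (cj c i) * ew gen (cj c i) = 1 := by
      rw [hcj]
      calc (ew gen c)⁻¹ * ew gen i * ew gen c * ((ew gen c)⁻¹ * ew gen i * ew gen c)
          = (ew gen c)⁻¹ * (ew gen i * ew gen i) * ew gen c := by group
        _ = 1 := by rw [hi']; group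
    rcases hF _ _ hcj2 hu' with h5 | h5
    · refine ih1 ?_
      rw [← e1]
      intro r hr'
      rcases List.mem_append.mp hr' with h6 | h6
      · exact htw r h6
      · rw [List.mem_singleton.mp h6, ew_rd hI hC, ew_append]; exact h5
    · refine ih2 ?_
      rw [← e2]
      intro r hr'
      rcases List.mem_append.mp hr' with h6 | h6
      · exact htw r h6
      · rw [List.mem_singleton.mp h6, ew_rd hI hC]
        unfold cm
        rw [ew_append, ew_append, ew_append, ew_irv hI]
        exact h5

end sound

/-- generators: two involutions and two elements of order 3 -/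
def gn {G : Type*} (s p x r : G) (i : ℕ) : G :=
  if i = 0 then s else if i = 1 then p else if i = 2 then x else r

theorem gn_HI {G : Type*} [Group G] {s p x r : G} (hs : s * s = 1) (hp : p * p = 1) :
    HI (gn s p x r) := by
  intro g hg
  interval_cases g
  · exact hs
  · exact hp

theorem gn_HC {G : Type*} [Group G] {s p x r : G} (hx : x ^ 3 = 1) (hr : r ^ 3 = 1) :
    HC (gn s p x r) := by
  intro i hi
  unfold gn
  rw [if_neg (by omega), if_neg (by omega)]
  split_ifs
  · exact hx
  · exact hr

end Pool.Agent.N151.LF
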